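import Pool.Agent.H59.KA.Stmts

/-!
# Project KA: QDL, diagonal changes of variables in quadratic polynomials
-/

set_option autoImplicit false

open MeasureTheory Set Filter Topology
open scoped ContDiff

namespace Pool.Agent.H59.KA

open Pool.Agent.H84 hiding cv mn
open Pool.Agent.H84.Sym Pool.Agent.H84.Sym.P2x Pool.Agent.H19.KL
open Pool.Agent.H73.KG Pool.Agent.H20.KH Pool.Agent.H78.KP

theorem qdl_li {E : Type} [NormedAddCommGroup E] [InnerProductSpace ℝ E]
    {ι : Type} [Fintype ι] (b : OrthonormalBasis ι ℝ E) (l : ι → ℝ) (i : ι) (x : E) :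
    li (b i) (dl b l x) = l i * li (b i) x := by
  classical
  unfold li dl
  rw [inner_sum, Finset.sum_eq_single i]
  · rw [inner_smul_right, real_inner_self_eq_norm_sq, b.norm_eq_one]; ring
  · intro j _ hj
    rw [inner_smul_right, b.inner_eq_zero (Ne.symm hj), mul_zero]
  · intro h; exact absurd (Finset.mem_univ i) h

theorem qdl_thm (E : Type) [NormedAddCommGroup E] [InnerProductSpace ℝ E]
    [FiniteDimensional ℝ E] [MeasurableSpace E] [BorelSpace E] (hD : DIAStmt E) :
    QDLStmt E := by
  intro U t hU ι _ _ b l hl B c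
  obtain ⟨-, -, h3, -, -, -⟩ := hD U t hU ι b l hl
  have hq : ∀ x : E, qf b B c (dl b l x) =
      qf b (Matrix.of fun i j => l i * B i j * l j) (fun i => l i * c i) x := by
    intro x
    unfold qf
    simp only [qdl_li, Matrix.of_apply]
    congr 1
    · refine Finset.sum_congr rfl fun i _ => Finset.sum_congr rfl fun j _ => ?_
      ring
    · congr 1
      refine Finset.sum_congr rfl fun i _ => ?_
      ring
  have hm : ∀ j, l j * mn (dU b l U) (b j) = mn U (b j) := by
    intro j
    have h := h3 (li (b j))
    simp only [qdl_li] at h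
    rw [integral_const_mul] at h
    exact h
  refine ⟨hq, ?_, ?_⟩
  · intro i
    unfold qv
    simp only [Matrix.of_apply]
    rw [mul_add, Finset.mul_sum]
    congr 1
    refine Finset.sum_congr rfl fun j _ => ?_
    rw [← hm j]; ring
  · unfold cv
    have e1 := h3 (fun x => qf b B c x * qf b B c x)
    have e2 := h3 (qf b B c)
    simp only [hq] at e1 e2
    rw [e1, e2]

end Pool.Agent.H59.KA
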